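import Mathlib

open Filter Topology Polynomial

namespace Pool.Agent.Results.MP_3984bd_an.CompleteHypercyclic

/-! ### Ultrafilter combinatorics -/

/-- An infinite set of naturals has an infinite subset outside a given ultrafilter. -/
lemma exists_infinite_subset_not_mem (U : Ultrafilter ℕ) (S : Set ℕ) (hS : S.Infinite) :
    ∃ B ⊆ S, B.Infinite ∧ B ∉ U := by
  obtain ⟨φ, hφ, hφS⟩ : ∃ φ : ℕ → ℕ, StrictMono φ ∧ ∀ n, φ n ∈ S :=
    extraction_of_frequently_atTop (Nat.frequently_atTop_iff_infinite.mpr hS)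
  by_cases h : Set.range (fun n => φ (2 * n)) ∈ U
  · refine ⟨Set.range (fun n => φ (2 * n + 1)), ?_, ?_, ?_⟩
    · rintro _ ⟨n, rfl⟩; exact hφS _
    · refine Set.infinite_range_of_injective (fun a b hab => ?_)
      have := hφ.injective hab
      omega
    · intro h'
      have h2 := inter_mem h h'
      have h3 : Set.range (fun n => φ (2 * n)) ∩ Set.range (fun n => φ (2 * n + 1)) = ∅ := by
        rw [Set.eq_empty_iff_forall_notMem]
        rintro x ⟨⟨a, ha⟩, ⟨b, hb⟩⟩
        have := hφ.injective (ha.trans hb.symm)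
        omega
      rw [h3] at h2
      exact U.empty_notMem h2
  · refine ⟨Set.range (fun n => φ (2 * n)), ?_, ?_, h⟩
    · rintro _ ⟨n, rfl⟩; exact hφS _
    · refine Set.infinite_range_of_injective (fun a b hab => ?_)
      have := hφ.injective hab
      omega

/-- An infinite set of naturals has an infinite subset outside countably many given
free ultrafilters. -/
lemma exists_infinite_subset_forall_not_mem (W : ℕ → Ultrafilter ℕ)
    (hW : ∀ k, (W k : Filter ℕ) ≤ cofinite) (S : Set ℕ) (hS : S.Infinite) :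
    ∃ B ⊆ S, B.Infinite ∧ ∀ k, B ∉ W k := by
  let step : (k : ℕ) → {S : Set ℕ // S.Infinite} → {S : Set ℕ // S.Infinite} := fun k S =>
    ⟨(exists_infinite_subset_not_mem (W k) S.1 S.2).choose,
      (exists_infinite_subset_not_mem (W k) S.1 S.2).choose_spec.2.1⟩
  let T : ℕ → {S : Set ℕ // S.Infinite} := fun k => Nat.rec ⟨S, hS⟩ (fun k R => step k R) k
  have hT0 : (T 0).1 = S := rfl
  have hTs : ∀ k, (T (k + 1)).1 ⊆ (T k).1 := fun k =>
    (exists_infinite_subset_not_mem (W k) (T k).1 (T k).2).choose_spec.1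
  have hTn : ∀ k, (T (k + 1)).1 ∉ W k := fun k =>
    (exists_infinite_subset_not_mem (W k) (T k).1 (T k).2).choose_spec.2.2
  have hanti : Antitone (fun k => (T k).1) := antitone_nat_of_succ_le hTs
  obtain ⟨φ, hφ, hφT⟩ : ∃ φ : ℕ → ℕ, StrictMono φ ∧ ∀ n, φ n ∈ (T n).1 :=
    extraction_forall_of_frequently (fun n => Nat.frequently_atTop_iff_infinite.mpr (T n).2)
  refine ⟨Set.range φ, ?_, Set.infinite_range_of_injective hφ.injective, ?_⟩
  · rintro _ ⟨n, rfl⟩
    exact hanti (Nat.zero_le n) (hφT n)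
  · intro k hk
    have hfin : (Set.range φ \ (T (k + 1)).1).Finite := by
      refine ((Set.finite_Iio (k + 1)).image φ).subset ?_
      rintro _ ⟨⟨n, rfl⟩, hn⟩
      refine ⟨n, ?_, rfl⟩
      by_contra hcon
      exact hn (hanti (not_lt.mp hcon) (hφT n))
    have h1 : (Set.range φ \ (T (k + 1)).1)ᶜ ∈ W k := hW k hfin.compl_mem_cofinite
    apply hTn k
    filter_upwards [hk, h1] with x hx hx'
    by_contra hcon
    exact hx' ⟨hx, hcon⟩

/-- Index function: every value is taken infinitely often. -/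
def idx (i : ℕ) : ℕ := (Nat.unpair i).1

lemma idx_fiber_infinite (j : ℕ) : {i | idx i = j}.Infinite := by
  refine Set.Infinite.mono ?_ (Set.infinite_range_of_injective
    (f := fun b : ℕ => Nat.pair j b) (fun a b hab => ?_))
  · rintro _ ⟨b, rfl⟩
    simp [idx]
  · have := congrArg (fun n => (Nat.unpair n).2) hab
    simpa using this

/-- There is a free ultrafilter concentrating on each fibre of `idx`. -/
lemma exists_ultra (j : ℕ) : ∃ U : Ultrafilter ℕ, (U : Filter ℕ) ≤ cofinite ∧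
    {i | idx i = j} ∈ U := by
  have hne : (cofinite ⊓ 𝓟 {i : ℕ | idx i = j}).NeBot := by
    rw [← Filter.frequently_mem_iff_neBot] 
    rw [Filter.frequently_cofinite_iff_infinite]
    exact idx_fiber_infinite j
  refine ⟨Ultrafilter.of (cofinite ⊓ 𝓟 {i : ℕ | idx i = j}), ?_, ?_⟩
  · exact (Ultrafilter.of_le _).trans inf_le_left
  · exact ((Ultrafilter.of_le _).trans inf_le_right) (mem_principal_self _)

section Construction

variable {𝕜 : Type} [RCLike 𝕜]

/-- The positions. -/
def pos (y : ℕ → 𝕜[X]) (i : ℕ) : ℕ :=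
  ∑ k ∈ Finset.range (i + 1), ((y (idx k)).natDegree + 2 * k + 1)

lemma pos_succ (y : ℕ → 𝕜[X]) (i : ℕ) :
    pos y (i + 1) = pos y i + ((y (idx (i + 1))).natDegree + 2 * (i + 1) + 1) := by
  simp [pos, Finset.sum_range_succ _ (i + 1)]

lemma pos_gt (y : ℕ → 𝕜[X]) (i : ℕ) : (y (idx i)).natDegree + i < pos y i := by
  cases i with
  | zero => simp [pos]
  | succ i => rw [pos_succ]; omega

lemma pos_lt (y : ℕ → 𝕜[X]) (i : ℕ) : pos y i + i < pos y (i + 1) := by
  rw [pos_succ]; omega

lemma pos_strictMono (y : ℕ → 𝕜[X]) : StrictMono (pos y) :=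
  strictMono_nat_of_lt_succ (fun i => by have := pos_lt y i; omega)

lemma pos_unique (y : ℕ → 𝕜[X]) {n i i' : ℕ} (h : pos y i ≤ n) (h' : n ≤ pos y i + i)
    (k : pos y i' ≤ n) (k' : n ≤ pos y i' + i') : i = i' := by
  rcases lt_trichotomy i i' with hlt | heq | hgt
  · have h1 := pos_lt y i
    have h2 := (pos_strictMono y).monotone (Nat.succ_le_of_lt hlt)
    simp only [Nat.succ_eq_add_one] at h2
    omega
  · exact heq
  · have h1 := pos_lt y i'
    have h2 := (pos_strictMono y).monotone (Nat.succ_le_of_lt hgt)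
    simp only [Nat.succ_eq_add_one] at h2
    omega

open Classical in
/-- The correction term. -/
noncomputable def corr (y : ℕ → 𝕜[X]) (n : ℕ) : 𝕜[X] :=
  if h : ∃ i, pos y i ≤ n ∧ n ≤ pos y i + i then
    X ^ (n - pos y h.choose) * y (idx h.choose)
  else 0

lemma corr_eq (y : ℕ → 𝕜[X]) {i m : ℕ} (hm : m ≤ i) :
    corr y (pos y i + m) = X ^ m * y (idx i) := by
  have h : ∃ i', pos y i' ≤ pos y i + m ∧ pos y i + m ≤ pos y i' + i' :=
    ⟨i, by omega, by omega⟩
  have hi : h.choose = i :=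
    (pos_unique y h.choose_spec.1 h.choose_spec.2 (by omega) (by omega))
  rw [corr, dif_pos h, hi]
  simp

lemma corr_degree (y : ℕ → 𝕜[X]) (n : ℕ) : (corr y n).degree < n := by
  by_cases h : ∃ i, pos y i ≤ n ∧ n ≤ pos y i + i
  · obtain ⟨i, h1, h2⟩ := h
    obtain ⟨m, rfl⟩ := Nat.exists_eq_add_of_le h1
    rw [corr_eq y (by omega : m ≤ i)]
    have h3 := pos_gt y i
    calc (X ^ m * y (idx i)).degree ≤ (X ^ m : 𝕜[X]).degree + (y (idx i)).degree := degree_mul_le _ _
      _ ≤ (m : WithBot ℕ) + ((y (idx i)).natDegree : WithBot ℕ) := by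
          gcongr
          · exact degree_X_pow_le m
          · exact degree_le_natDegree
      _ = ((m + (y (idx i)).natDegree : ℕ) : WithBot ℕ) := by push_cast; ring
      _ < ((pos y i + m : ℕ) : WithBot ℕ) := by
          rw [Nat.cast_lt]; omega
  · rw [corr, dif_neg h, degree_zero]
    exact WithBot.bot_lt_coe n

/-- The triangular sequence of polynomials. -/
noncomputable def seq (y : ℕ → 𝕜[X]) : Polynomial.Sequence 𝕜 where
  elems' n := X ^ n - corr y n
  degree_eq' n := by
    rw [degree_sub_eq_left_of_degree_lt, degree_X_pow]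
    rw [degree_X_pow]
    exact corr_degree y n

lemma seq_isUnit (y : ℕ → 𝕜[X]) (i : ℕ) : IsUnit ((seq y) i).leadingCoeff := by
  rw [isUnit_iff_ne_zero]
  exact leadingCoeff_ne_zero.mpr ((seq y).ne_zero i)

/-- The triangular basis. -/
noncomputable def bas (y : ℕ → 𝕜[X]) : Module.Basis ℕ 𝕜 𝕜[X] :=
  (seq y).basis (seq_isUnit y)

lemma bas_apply (y : ℕ → 𝕜[X]) (n : ℕ) : bas y n = X ^ n - corr y n := by
  rw [bas, Polynomial.Sequence.basis_eq_self]
  rfl

lemma bas_pos (y : ℕ → 𝕜[X]) {i m : ℕ} (hm : m ≤ i) :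
    bas y (pos y i + m) = X ^ (pos y i + m) - X ^ m * y (idx i) := by
  rw [bas_apply, corr_eq y hm]

/-- The chosen ultrafilters. -/
noncomputable def ult (j : ℕ) : Ultrafilter ℕ := (exists_ultra j).choose

lemma ult_le (j : ℕ) : (ult j : Filter ℕ) ≤ cofinite := (exists_ultra j).choose_spec.1
lemma ult_mem (j : ℕ) : {i | idx i = j} ∈ ult j := (exists_ultra j).choose_spec.2

/-- The pushed-forward ultrafilters, enumerated by pairs. -/
noncomputable def wul (y : ℕ → 𝕜[X]) (k : ℕ) : Ultrafilter ℕ :=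
  (ult (Nat.unpair k).1).map (fun i => pos y i + (Nat.unpair k).2)

lemma wul_le (y : ℕ → 𝕜[X]) (k : ℕ) : (wul y k : Filter ℕ) ≤ cofinite := by
  have hinj : Function.Injective (fun i => pos y i + (Nat.unpair k).2) := by
    intro i i' h
    exact (pos_strictMono y).injective (Nat.add_right_cancel h)
  exact (hinj.tendsto_cofinite.mono_left (ult_le _))

/-- Eventually along `wul`, `bas` is given by the shifted differences. -/
lemma bas_eventually (y : ℕ → 𝕜[X]) (j m : ℕ) :
    ∀ᶠ i in (ult j : Filter ℕ), bas y (pos y i + m) = X ^ (pos y i + m) - X ^ m * y j := by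
  have h1 : {i | m ≤ i} ∈ (ult j : Filter ℕ) := by
    apply ult_le j
    rw [mem_cofinite]
    refine (Set.finite_Iio m).subset ?_
    intro i hi
    simpa using hi
  filter_upwards [h1, ult_mem j] with i hi hj
  rw [bas_pos y hi, show idx i = j from hj]

/-- Admissible seminorms. -/
abbrev Adm (y : ℕ → 𝕜[X]) : Type :=
  {p : Seminorm 𝕜 𝕜[X] // ∀ k, Tendsto (fun n => p (bas y n)) (wul y k) (𝓝 0)}

lemma adm_iff (y : ℕ → 𝕜[X]) (p : Seminorm 𝕜 𝕜[X]) :
    (∀ k, Tendsto (fun n => p (bas y n)) (wul y k) (𝓝 0)) ↔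
    ∀ j m, Tendsto (fun i => p (X ^ (pos y i + m) - X ^ m * y j)) (ult j) (𝓝 0) := by
  constructor
  · intro h j m
    have h1 := h (Nat.pair j m)
    rw [wul, Ultrafilter.coe_map, tendsto_map'_iff, Nat.unpair_pair] at h1
    refine h1.congr' ?_
    filter_upwards [bas_eventually y j m] with i hi
    simp only [Function.comp]
    rw [hi]
  · intro h k
    rw [wul, Ultrafilter.coe_map, tendsto_map'_iff]
    refine (h (Nat.unpair k).1 (Nat.unpair k).2).congr' ?_
    filter_upwards [bas_eventually y (Nat.unpair k).1 (Nat.unpair k).2] with i hi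
    simp only [Function.comp]
    rw [hi]

lemma summable_aux (y : ℕ → 𝕜[X]) (c : ℕ → ℝ) (w : 𝕜[X]) :
    Summable (fun n => c n * ‖(bas y).repr w n‖) := by
  refine summable_of_ne_finset_zero (s := ((bas y).repr w).support) ?_
  intro n hn
  rw [Finsupp.notMem_support_iff] at hn
  rw [hn, norm_zero, mul_zero]

/-- Weighted ell-one seminorm with respect to the triangular basis. -/
noncomputable def wsem (y : ℕ → 𝕜[X]) (c : ℕ → ℝ) (hc : ∀ n, 0 ≤ c n) : Seminorm 𝕜 𝕜[X] :=
  Seminorm.of (fun x => ∑' n, c n * ‖(bas y).repr x n‖)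
    (by
      intro x z
      have hs : ∀ w : 𝕜[X], Summable (fun n => c n * ‖(bas y).repr w n‖) := by
        intro w
        exact summable_aux y c w
      rw [← (hs x).tsum_add (hs z)]
      refine (hs (x + z)).tsum_le_tsum (fun n => ?_) ((hs x).add (hs z))
      rw [map_add, Finsupp.add_apply, ← mul_add]
      exact mul_le_mul_of_nonneg_left (norm_add_le _ _) (hc n))
    (by
      intro a x
      rw [← tsum_mul_left]
      congr 1
      ext n
      rw [map_smul, Finsupp.smul_apply, norm_smul]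
      ring)

lemma wsem_apply (y : ℕ → 𝕜[X]) (c : ℕ → ℝ) (hc : ∀ n, 0 ≤ c n) (x : 𝕜[X]) :
    wsem y c hc x = ∑' n, c n * ‖(bas y).repr x n‖ := rfl

lemma wsem_bas (y : ℕ → 𝕜[X]) (c : ℕ → ℝ) (hc : ∀ n, 0 ≤ c n) (n : ℕ) :
    wsem y c hc (bas y n) = c n := by
  rw [wsem_apply, tsum_eq_single n]
  · simp
  · intro b hb
    simp [hb.symm]

lemma sum_le_wsem (y : ℕ → 𝕜[X]) (c : ℕ → ℝ) (hc : ∀ n, 0 ≤ c n) (x : 𝕜[X]) (F : Finset ℕ) :
    ∑ n ∈ F, c n * ‖(bas y).repr x n‖ ≤ wsem y c hc x := by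
  rw [wsem_apply]
  exact (summable_aux y c x).sum_le_tsum F (fun n _ => mul_nonneg (hc n) (norm_nonneg _))

lemma seminorm_le_wsem (y : ℕ → 𝕜[X]) (p : Seminorm 𝕜 𝕜[X]) (x : 𝕜[X]) :
    p x ≤ ∑ n ∈ ((bas y).repr x).support, p (bas y n) * ‖(bas y).repr x n‖ := by
  have h1 : x = ∑ n ∈ ((bas y).repr x).support, (bas y).repr x n • bas y n := by
    conv_lhs => rw [← (bas y).linearCombination_repr x]
    rw [Finsupp.linearCombination_apply, Finsupp.sum]
  have h2 := Finset.le_sum_of_subadditive (f := p) (map_zero p).le (map_add_le_add p)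
    ((bas y).repr x).support (fun n => (bas y).repr x n • bas y n)
  rw [← h1] at h2
  refine h2.trans (Finset.sum_le_sum (fun n _ => ?_))
  rw [map_smul_eq_mul, mul_comm]

/-- The seminorm family. -/
def fam (y : ℕ → 𝕜[X]) : SeminormFamily 𝕜 𝕜[X] (Adm y) := fun p => p.1

instance (y : ℕ → 𝕜[X]) : Nonempty (Adm y) :=
  ⟨⟨0, fun k => by simp⟩⟩

/-- The topology. -/
noncomputable abbrev topo (y : ℕ → 𝕜[X]) : TopologicalSpace 𝕜[X] :=
  (fam y).moduleFilterBasis.topology

lemma withSeminorms (y : ℕ → 𝕜[X]) :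
    letI := topo y
    WithSeminorms (fam y) := by
  let _ := topo y
  exact ⟨rfl⟩

lemma wsem_adm (y : ℕ → 𝕜[X]) (c : ℕ → ℝ) (hc : ∀ n, 0 ≤ c n)
    (h : ∀ k, Tendsto c (wul y k) (𝓝 0)) :
    ∀ k, Tendsto (fun n => wsem y c hc (bas y n)) (wul y k) (𝓝 0) := by
  intro k
  simpa only [wsem_bas] using h k

lemma tendsto_single (y : ℕ → 𝕜[X]) (n : ℕ) (k : ℕ) :
    Tendsto (fun m => if m = n then (1 : ℝ) else 0) (wul y k) (𝓝 0) := by
  apply tendsto_const_nhds.congr'
  have : {m | m ≠ n} ∈ (wul y k : Filter ℕ) := by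
    apply wul_le y k
    rw [mem_cofinite]
    exact (Set.finite_singleton n).subset (fun m hm => by simpa using hm)
  filter_upwards [this] with m hm
  simp [show m ≠ n from hm]

/-- The completeness argument. -/
lemma complete_aux (y : ℕ → 𝕜[X]) (f : Filter 𝕜[X]) [f.NeBot]
    (hf : ∀ (p : Adm y) (ε : ℝ), 0 < ε → ∃ t ∈ f, ∀ x ∈ t, ∀ z ∈ t, p.1 (x - z) < ε) :
    ∃ x : 𝕜[X], ∀ (p : Adm y) (ε : ℝ), 0 < ε → ∀ᶠ z in f, p.1 (z - x) < ε := by
  -- coordinatewise limits
  have hlim : ∀ n, ∃ l : 𝕜, Tendsto (fun x => (bas y).repr x n) f (𝓝 l) := by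
    intro n
    have hc : ∀ m, (0 : ℝ) ≤ (fun m => if m = n then (1 : ℝ) else 0) m := by
      intro m; dsimp only; split_ifs <;> norm_num
    have hcau : Cauchy (f.map (fun x => (bas y).repr x n)) := by
      rw [Metric.cauchy_iff]
      refine ⟨inferInstance, fun ε hε => ?_⟩
      obtain ⟨t, ht, h⟩ := hf ⟨wsem y _ hc, wsem_adm y _ hc (tendsto_single y n)⟩ ε hε
      refine ⟨_, image_mem_map ht, ?_⟩
      rintro _ ⟨x, hx, rfl⟩ _ ⟨z, hz, rfl⟩
      have h1 := h x hx z hz
      have h2 := sum_le_wsem y _ hc (x - z) {n}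
      simp only [Finset.sum_singleton, if_true, one_mul, map_sub, Finsupp.sub_apply] at h2
      rw [dist_eq_norm]
      exact h2.trans_lt h1
    obtain ⟨l, hl⟩ := CompleteSpace.complete hcau
    exact ⟨l, hl⟩
  choose l hl using hlim
  -- the main estimate
  have hmain : ∀ (c : ℕ → ℝ) (_ : ∀ n, 0 ≤ c n) (_ : ∀ k, Tendsto c (wul y k) (𝓝 0)) (ε : ℝ),
      0 < ε → ∃ t ∈ f, ∀ x ∈ t, ∀ F : Finset ℕ,
        ∑ n ∈ F, c n * ‖(bas y).repr x n - l n‖ ≤ ε := by
    intro c hc hc' ε hε
    obtain ⟨t, ht, h⟩ := hf ⟨wsem y c hc, wsem_adm y c hc hc'⟩ ε hε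
    refine ⟨t, ht, fun x hx F => ?_⟩
    have htend : Tendsto (fun z => ∑ n ∈ F, c n * ‖(bas y).repr x n - (bas y).repr z n‖) f
        (𝓝 (∑ n ∈ F, c n * ‖(bas y).repr x n - l n‖)) := by
      refine tendsto_finsetSum _ (fun n _ => ?_)
      exact ((tendsto_const_nhds.sub (hl n)).norm).const_mul _
    refine le_of_tendsto htend ?_
    filter_upwards [ht] with z hz
    have h2 := sum_le_wsem y c hc (x - z) F
    simp only [map_sub, Finsupp.sub_apply] at h2
    exact h2.trans (h x hx z hz).le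
  -- finite support of the limit
  have hfin : (Function.support l).Finite := by
    by_contra hinf
    obtain ⟨B, hB, hBinf, hBW⟩ := exists_infinite_subset_forall_not_mem (wul y) (wul_le y)
      (Function.support l) hinf
    classical
    let c : ℕ → ℝ := fun n => if n ∈ B then ‖l n‖⁻¹ else 0
    have hc : ∀ n, 0 ≤ c n := by
      intro n; dsimp only [c]; split_ifs
      · positivity
      · exact le_rfl
    have hc' : ∀ k, Tendsto c (wul y k) (𝓝 0) := by
      intro k
      apply tendsto_const_nhds.congr'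
      have : Bᶜ ∈ (wul y k : Filter ℕ) := by
        have := hBW k
        rwa [← Ultrafilter.compl_mem_iff_notMem] at this
      filter_upwards [this] with m hm
      simp [c, show m ∉ B from hm]
    obtain ⟨t, ht, h⟩ := hmain c hc hc' 1 one_pos
    obtain ⟨x, hx⟩ := (inferInstance : f.NeBot).nonempty_of_mem ht
    have hinf2 : (B \ (((bas y).repr x).support : Set ℕ)).Infinite :=
      hBinf.sdiff (Finset.finite_toSet _)
    obtain ⟨F, hF, hFc⟩ := hinf2.exists_subset_card_eq 2
    have h1 := h x hx F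
    have h2 : ∑ n ∈ F, c n * ‖(bas y).repr x n - l n‖ = ∑ n ∈ F, (1 : ℝ) := by
      refine Finset.sum_congr rfl (fun n hn => ?_)
      have hn' := hF hn
      have hnB : n ∈ B := hn'.1
      have hns : (bas y).repr x n = 0 := by
        have := hn'.2
        simpa using this
      have hln : l n ≠ 0 := hB hnB
      rw [hns, zero_sub, norm_neg]
      simp only [c, if_pos hnB]
      exact inv_mul_cancel₀ (norm_ne_zero_iff.mpr hln)
    rw [h2] at h1
    simp [hFc] at h1
  -- the limit
  let L : ℕ →₀ 𝕜 := Finsupp.ofSupportFinite l hfin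
  have hL : ∀ n, L n = l n := fun n => rfl
  refine ⟨(bas y).repr.symm L, fun p ε hε => ?_⟩
  obtain ⟨t, ht, h⟩ := hmain (fun n => p.1 (bas y n)) (fun n => apply_nonneg _ _) p.2 (ε / 2)
    (half_pos hε)
  filter_upwards [ht] with z hz
  have h1 := seminorm_le_wsem y p.1 (z - (bas y).repr.symm L)
  have h2 := h z hz ((bas y).repr (z - (bas y).repr.symm L)).support
  simp only [map_sub, LinearEquiv.apply_symm_apply, Finsupp.sub_apply, hL] at h1 h2
  linarith

/-- Linear independence, Hausdorff property: separation of points. -/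
lemma separating (y : ℕ → 𝕜[X]) (x : 𝕜[X]) (hx : x ≠ 0) : ∃ p : Adm y, p.1 x ≠ 0 := by
  have h1 : (bas y).repr x ≠ 0 := by simpa using hx
  obtain ⟨n, hn⟩ := Finsupp.ne_iff.mp h1
  have hc : ∀ m, (0 : ℝ) ≤ (fun m => if m = n then (1 : ℝ) else 0) m := by
    intro m; dsimp only; split_ifs <;> norm_num
  refine ⟨⟨wsem y _ hc, wsem_adm y _ hc (tendsto_single y n)⟩, ?_⟩
  have h2 := sum_le_wsem y _ hc x {n}
  simp only [Finset.sum_singleton, if_true, one_mul] at h2
  have h3 : 0 < ‖(bas y).repr x n‖ := norm_pos_iff.mpr (by simpa using hn)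
  exact (h3.trans_le h2).ne'

/-- A countable set of polynomials whose closure in any vector topology is everything. -/
lemma exists_dense_seq (𝕜 : Type) [RCLike 𝕜] : ∃ y : ℕ → 𝕜[X],
    ∀ (t : TopologicalSpace 𝕜[X]) (_ : IsTopologicalAddGroup 𝕜[X]) (_ : ContinuousSMul 𝕜 𝕜[X]),
      closure (Set.range y) = Set.univ := by
  obtain ⟨s, hsc, hsd⟩ := TopologicalSpace.exists_countable_dense 𝕜
  let g : (n : ℕ) → (Fin n → 𝕜) → 𝕜[X] := fun n v => ∑ i : Fin n, v i • (X : 𝕜[X]) ^ (i : ℕ)
  let E : Set 𝕜[X] := ⋃ n, g n '' (Set.pi Set.univ (fun _ => s))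
  have hE : E.Countable :=
    Set.countable_iUnion (fun n => (Set.countable_univ_pi (fun _ => hsc)).image _)
  have hEn : E.Nonempty := by
    refine ⟨0, Set.mem_iUnion.mpr ⟨0, Fin.elim0, ?_, ?_⟩⟩
    · intro i; exact Fin.elim0 i
    · simp [g]
  obtain ⟨y, hy⟩ := hE.exists_eq_range hEn
  refine ⟨y, fun _ _ _ => ?_⟩
  rw [← hy]
  ext p
  simp only [Set.mem_univ, iff_true]
  have hcont : Continuous (g (p.natDegree + 1)) :=
    continuous_finsetSum _ (fun i _ => (continuous_apply i).smul continuous_const)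
  have hd : Dense (Set.pi Set.univ (fun _ : Fin (p.natDegree + 1) => s)) :=
    dense_pi _ (fun _ _ => hsd)
  have h3 : (fun i : Fin (p.natDegree + 1) => p.coeff i) ∈
      closure (Set.pi Set.univ (fun _ : Fin (p.natDegree + 1) => s)) := hd _
  have h4 := image_closure_subset_closure_image hcont (Set.mem_image_of_mem _ h3)
  have h5 : g (p.natDegree + 1) (fun i : Fin (p.natDegree + 1) => p.coeff i) = p := by
    conv_rhs => rw [p.as_sum_range_C_mul_X_pow]
    simp only [g]
    rw [Fin.sum_univ_eq_sum_range (fun i => p.coeff i • (X : 𝕜[X]) ^ i)]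
    exact Finset.sum_congr rfl (fun i _ => by rw [smul_eq_C_mul])
  rw [h5] at h4
  exact closure_mono (Set.subset_iUnion (fun n => g n '' (Set.pi Set.univ (fun _ => s))) _) h4

end Construction

/-- There is a complete Hausdorff locally convex space of countably infinite Hamel dimension
that supports a hypercyclic operator, over both scalar fields. -/
theorem result
    (𝕜 : Type) [RCLike 𝕜] :
    ∃ (X : Type) (_ : AddCommGroup X) (_ : Module 𝕜 X) (_ : Module ℝ X) (_ : IsScalarTower ℝ 𝕜 X)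
      (_ : UniformSpace X) (_ : IsUniformAddGroup X) (_ : ContinuousSMul 𝕜 X)
      (_ : LocallyConvexSpace ℝ X) (_ : T2Space X) (_ : CompleteSpace X),
      Module.rank 𝕜 X = Cardinal.aleph0 ∧
      ∃ (T : X →L[𝕜] X) (x : X), Dense (Set.range fun n : ℕ => (T ^ n) x) := by
  obtain ⟨y, hy⟩ := exists_dense_seq 𝕜
  let t : TopologicalSpace 𝕜[X] := topo y
  have hp : WithSeminorms (fam y) := withSeminorms y
  have h1 : IsTopologicalAddGroup 𝕜[X] := hp.topologicalAddGroup
  have h2 : ContinuousSMul 𝕜 𝕜[X] := hp.continuousSMul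
  have h3 : LocallyConvexSpace ℝ 𝕜[X] := hp.toLocallyConvexSpace
  have h4 : T1Space 𝕜[X] := hp.T1_of_separating (separating y)
  let u : UniformSpace 𝕜[X] := IsTopologicalAddGroup.rightUniformSpace 𝕜[X]
  have h5 : IsUniformAddGroup 𝕜[X] := isUniformAddGroup_of_addCommGroup
  have h6 : T2Space 𝕜[X] := inferInstance
  have h7 : CompleteSpace 𝕜[X] := by
    refine ⟨fun {f} hf => ?_⟩
    have := hf.1
    obtain ⟨x, hx⟩ := complete_aux y f (by
      intro p ε hε
      have hmem : {z : 𝕜[X] × 𝕜[X] | p.1 (z.2 - z.1) < ε} ∈ uniformity 𝕜[X] := by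
        rw [uniformity_eq_comap_nhds_zero]
        refine ⟨{x | p.1 x < ε}, ?_, fun z hz => hz⟩
        have hcont : Continuous p.1 := hp.continuous_seminorm p
        exact hcont.continuousAt.eventually_lt continuousAt_const (by simpa using hε)
      obtain ⟨t1, ht1, t2, ht2, h⟩ := Filter.mem_prod_iff.mp (hf.2 hmem)
      refine ⟨t1 ∩ t2, inter_mem ht1 ht2, fun x hx z hz => ?_⟩
      exact h (Set.mk_mem_prod hz.1 hx.2))
    refine ⟨x, ?_⟩
    have := (hp.tendsto_nhds (id : 𝕜[X] → 𝕜[X]) (f := f) x).mpr hx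
    rwa [Filter.Tendsto, Filter.map_id] at this
  refine ⟨𝕜[X], inferInstance, inferInstance, inferInstance, inferInstance, u, h5, h2, h3, h6, h7,
    ?_, ?_⟩
  · have := (Polynomial.basisMonomials 𝕜).mk_eq_rank''
    rw [← this, Cardinal.mk_nat]
  · -- the shift
    have hcont : Continuous (LinearMap.mulLeft 𝕜 (X : 𝕜[X])) := by
      refine hp.continuous_of_isBounded hp _ ?_
      intro p
      have hadm : ∀ k, Tendsto (fun n => (p.1.comp (LinearMap.mulLeft 𝕜 (X : 𝕜[X]))) (bas y n))
          (wul y k) (𝓝 0) := by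
        rw [adm_iff]
        intro j m
        have h := (adm_iff y p.1).mp p.2 j (m + 1)
        refine h.congr (fun i => ?_)
        rw [Seminorm.comp_apply, LinearMap.mulLeft_apply]
        congr 1
        ring
      let p' : Adm y := ⟨_, hadm⟩
      refine ⟨{p'}, 1, ?_⟩
      rw [one_smul, Finset.sup_singleton]
      exact le_rfl
    let T : 𝕜[X] →L[𝕜] 𝕜[X] := ⟨LinearMap.mulLeft 𝕜 (X : 𝕜[X]), hcont⟩
    have hT : ∀ n : ℕ, (T ^ n) (1 : 𝕜[X]) = X ^ n := by
      intro n
      induction n with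
      | zero => simp
      | succ n ih =>
        rw [pow_succ', mul_apply_eq_comp, ih]
        change X * X ^ n = X ^ (n + 1)
        ring
    refine ⟨T, 1, ?_⟩
    have hrange : Set.range (fun n : ℕ => (T ^ n) (1 : 𝕜[X])) =
        Set.range (fun n : ℕ => (X : 𝕜[X]) ^ n) := by
      congr 1
      ext1 n
      exact hT n
    rw [hrange]
    have hsub : Set.range y ⊆ closure (Set.range (fun n : ℕ => (X : 𝕜[X]) ^ n)) := by
      rintro _ ⟨j, rfl⟩
      have htend : Tendsto (fun i => (X : 𝕜[X]) ^ (pos y i)) (ult j) (𝓝 (y j)) := by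
        rw [hp.tendsto_nhds]
        intro p ε hε
        have h := (adm_iff y p.1).mp p.2 j 0
        simp only [add_zero, pow_zero, one_mul] at h
        exact h.eventually_lt_const hε
      exact mem_closure_of_tendsto htend (Eventually.of_forall (fun i => ⟨_, rfl⟩))
    have hclos := hy t h1 h2
    have h8 : closure (Set.range y) ⊆ closure (Set.range (fun n : ℕ => (X : 𝕜[X]) ^ n)) :=
      closure_minimal hsub isClosed_closure
    rw [hclos] at h8
    exact fun x => h8 (Set.mem_univ x)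

end Pool.Agent.Results.MP_3984bd_an.CompleteHypercyclic
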